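import Pool.Agent.Q153.CD.M5c

set_option autoImplicit false

/-! Project CD, job M5. -/

namespace Pool.Agent.Q153.CD

open Finset Filter MeasureTheory
open Pool.Agent.Q276.CD

/-- the sum of the coefficients -/
lemma sum_coef_le {k : ℝ} (hk : |k| ≤ 1) {N0 d0 N1 d1 Y : ℕ} (hY : 1 ≤ Y) :
    (∑ n ∈ Finset.Icc 1 Y, |(aI k N0 d0 * muM N0 d0 N1 d1) n|) ^ 2 ≤
      Real.exp (4 * Real.log Y) := by
  have hY0 : (0 : ℝ) < Y := by exact_mod_cast hY
  have h1 : ∑ n ∈ Finset.Icc 1 Y, |(aI k N0 d0 * muM N0 d0 N1 d1) n| ≤ (Y : ℝ) * Y := by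
    calc ∑ n ∈ Finset.Icc 1 Y, |(aI k N0 d0 * muM N0 d0 N1 d1) n|
        ≤ ∑ n ∈ Finset.Icc 1 Y, (Y : ℝ) := by
          refine Finset.sum_le_sum fun n hn => (prod_abs_le hk n).trans ?_
          exact_mod_cast (Finset.mem_Icc.mp hn).2
      _ = (Y : ℝ) * Y := by
          rw [Finset.sum_const, nsmul_eq_mul, Nat.card_Icc]
          simp
  have h2 : Real.exp (4 * Real.log Y) = ((Y : ℝ) * Y) ^ 2 := by
    rw [show 4 * Real.log Y = Real.log Y * 4 by ring, Real.exp_mul, Real.exp_log hY0]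
    norm_cast
    ring
  rw [h2]
  exact pow_le_pow_left₀ (Finset.sum_nonneg fun _ _ => abs_nonneg _) h1 2

theorem t_M5 (hTW : P_TW) : P_M5 := by
  obtain ⟨η, hη, C0, hC0, hTW⟩ := hTW
  obtain ⟨c, hc0, hc⟩ := R1_floor
  set K2 := Km 2 with hK2
  set K3 := Km 3 with hK3
  set K4 := Km 4 with hK4
  set K5 := Km 5 with hK5
  have hK2n : 0 ≤ K2 := Km_nonneg 2
  have hK3n : 0 ≤ K3 := Km_nonneg 3
  have hK4n : 0 ≤ K4 := Km_nonneg 4
  have hK5n : 0 ≤ K5 := Km_nonneg 5
  set E2 : ℝ := Real.exp (c + 2 * c * K2) with hE2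
  set E3 : ℝ := Real.exp (c + 2 * c * K3) with hE3
  have hE2p : 0 < E2 := Real.exp_pos _
  have hE3p : 0 < E3 := Real.exp_pos _
  set EE : ℝ := 4 * K2 + 4 * K3 + 5 with hEE
  set BB : ℝ := C0 * Real.exp c * (E2 + 2 * E3 + 2) + 1 with hBB
  set ε : ℝ := min η (1 / 5) with hε
  have hε0 : 0 < ε := lt_min hη (by norm_num)
  refine ⟨EE + 1, by linarith, ?_⟩
  filter_upwards [hTW, par_eventually ((K4 + K5) * (1 + c)) ε hε0,
    tendsto_l3.eventually_ge_atTop (Real.log BB)] with T hT hP hlB k hk0 hk1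
  have hk : |k| ≤ 1 := by rw [abs_of_nonneg hk0]; exact hk1
  have hV := hP.V_ge
  have hl := hP.hl
  have hlV := hP.l_le
  have hL := hP.L_pos
  have hT0 : 0 < T := by linarith [hP.hT]
  set L := Real.log T with hLdef
  set v := V T with hvdef
  set l := l3 T with hldef
  set N0 := y0 T with hN0def
  set N1 := y1 T with hN1def
  have h01 : N0 ≤ N1 := hP.N01
  have hN0 : 1 ≤ N0 := Par.N0_pos T
  have hYpos : 0 < YY T := YY_pos T
  have hYlog := hP.log_YY
  have hk2 : k ^ 2 ≤ 1 := by nlinarith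
  have hk2n : 0 ≤ k ^ 2 := sq_nonneg k
  -- logarithms of the exponents
  have hlog0 : Real.log (L / v ^ 4) = v - 4 * l := by
    rw [Real.log_div hL.ne' (by positivity), Real.log_pow]
    have e1 : Real.log L = v := rfl
    have e2 : Real.log v = l := rfl
    rw [e1, e2]
    push_cast
    ring
  have hlog1 : Real.log (L / l ^ 3) = v - 3 * Real.log l := by
    rw [Real.log_div hL.ne' (by positivity), Real.log_pow]
    have e1 : Real.log L = v := rfl
    rw [e1]
    push_cast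
    ring
  have hR0 := abs_le.mp (hc (L / v ^ 4) hP.hx0)
  have hR1 := abs_le.mp (hc (L / l ^ 3) (hP.hx0.trans hP.x1_ge))
  rw [hlog0] at hR0
  rw [hlog1] at hR1
  have hN0e : ⌊Real.exp (L / v ^ 4)⌋₊ + 1 = N0 := rfl
  have hN1e : ⌊Real.exp (L / l ^ 3)⌋₊ + 1 = N1 := rfl
  rw [hN0e] at hR0
  rw [hN1e] at hR1
  have hll : 0 ≤ Real.log l := Real.log_nonneg (by linarith)
  have hll2 : Real.log l ≤ l := (Real.log_le_sub_one_of_pos (by linarith)).trans (by linarith)
  have r0 : R1 N0 ≤ v + c := by linarith [hR0.2]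
  have r1 : R1 N1 ≤ v + c := by linarith [hR1.2]
  have r0n : 0 ≤ R1 N0 := R1_nonneg N0
  have hDl : Dl N0 N1 ≤ 4 * l + 2 * c := by
    unfold Dl
    linarith [hR0.1, hR1.2]
  have hexpR : Real.exp (-R1 N1) ≤ Real.exp c * Real.exp (3 * l) / L := by
    have h1 : -R1 N1 ≤ c + 3 * l - v := by linarith [hR1.1]
    calc Real.exp (-R1 N1) ≤ Real.exp (c + 3 * l - v) := Real.exp_le_exp.mpr h1
      _ = Real.exp c * Real.exp (3 * l) / L := by
          rw [Real.exp_sub, Real.exp_add, hLdef, hP.hL]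
  -- the Rankin factors
  have hrr : ∀ K : ℝ, 0 ≤ K → K ≤ K4 + K5 →
      (rr ^ d0 T)⁻¹ * Real.exp (K * R1 N1) ≤ 1 := by
    intro K hK0 hK1
    have hp : 0 < rr ^ d0 T := pow_pos rr_pos _
    rw [inv_mul_le_iff₀ hp, mul_one]
    have h1 : Real.exp (v ^ 2 * Real.log rr) ≤ rr ^ d0 T := by
      have h2 : rr ^ d0 T = Real.exp (Real.log rr * d0 T) := by
        rw [Real.exp_mul, Real.exp_log rr_pos, Real.rpow_natCast]
      rw [h2]
      refine Real.exp_le_exp.mpr ?_
      have h3 := Par.d0_ge T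
      have h4 : 0 ≤ Real.log rr := Real.log_nonneg one_le_rr
      rw [mul_comm]
      exact mul_le_mul_of_nonneg_left h3 h4
    refine le_trans ?_ h1
    refine Real.exp_le_exp.mpr ?_
    have h5 := hP.hc
    calc K * R1 N1 ≤ K * (v + c) := mul_le_mul_of_nonneg_left r1 hK0
      _ ≤ (K4 + K5) * (v + c) := mul_le_mul_of_nonneg_right hK1 (by linarith)
      _ ≤ (K4 + K5) * (1 + c) * v + (K4 + K5) * (1 + c) := by
          have : v + c ≤ (1 + c) * v + (1 + c) := by nlinarith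
          have h6 := mul_le_mul_of_nonneg_left this (by linarith : 0 ≤ K4 + K5)
          linarith
      _ ≤ _ := h5
  have hmain : ∀ K E : ℝ, 0 ≤ K → E = Real.exp (c + 2 * c * K) →
      Real.exp (k ^ 2 * R1 N0 + K * Dl N0 N1) ≤
        Real.exp (k ^ 2 * v) * Real.exp (4 * K * l) * E := by
    intro K E hK hE
    rw [hE, ← Real.exp_add, ← Real.exp_add]
    refine Real.exp_le_exp.mpr ?_
    have h1 : k ^ 2 * R1 N0 ≤ k ^ 2 * v + c := by
      have h2 := mul_le_mul_of_nonneg_left r0 hk2n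
      have h3 := mul_le_mul_of_nonneg_right hk2 hc0
      linarith
    have h4 := mul_le_mul_of_nonneg_left hDl hK
    linarith
  -- the two sums
  set X : ℝ := Real.exp (k ^ 2 * v) with hX
  have hX1 : 1 ≤ X := Real.one_le_exp (mul_nonneg hk2n (by linarith))
  set W : ℝ := Real.exp ((4 * K2 + 4 * K3 + 2) * l) with hW
  have hW1 : 1 ≤ W := Real.one_le_exp (by positivity)
  have hW2 : Real.exp (4 * K2 * l) ≤ W := Real.exp_le_exp.mpr (by nlinarith)
  have hW3 : v ^ 2 * Real.exp (4 * K3 * l) ≤ W := by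
    rw [hvdef, hP.hV, ← Real.exp_nat_mul, ← Real.exp_add]
    refine Real.exp_le_exp.mpr ?_
    push_cast
    nlinarith
  have S2 : SS N1 (fun n => cM k N0 (d0 T) N1 (d1 T) n ^ 2) ≤ X * W * (E2 + 1) := by
    refine (SS_sq hk0 hk1 h01).trans ?_
    have h1 := hmain K2 E2 hK2n rfl
    have h2 := hrr K4 hK4n (by linarith)
    have h3 : X * Real.exp (4 * K2 * l) * E2 ≤ X * W * E2 :=
      mul_le_mul_of_nonneg_right (mul_le_mul_of_nonneg_left hW2 (by linarith)) hE2p.le
    have h4 : 1 ≤ X * W := one_le_mul_of_one_le_of_one_le hX1 hW1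
    have h5 : X * W * (E2 + 1) = X * W * E2 + X * W := by ring
    linarith
  have S3 : SS N1 (fun n => ((GG N0 (d0 T) N1 (d1 T))ᶜ).indicator
      (fun n => cM k N0 (d0 T) N1 (d1 T) n ^ 2 * Real.log n) n) ≤
      L * (X * W * (2 * E3 + 1)) := by
    refine (SS_bad hk0 hk1 h01).trans ?_
    have hlogN1 : Real.log (N1 : ℝ) ≤ L := by
      refine Real.log_le_log ?_ hP.N1_le
      exact_mod_cast hN0.trans h01
    have h1 := hmain K3 E3 hK3n rfl
    have h2 := hrr K5 hK5n (by linarith)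
    have hd : (d0 T : ℝ) + 1 ≤ 2 * v ^ 2 := by
      have := Par.d0_le T
      nlinarith
    have h3 : ((d0 T : ℝ) + 1) * Real.exp (k ^ 2 * R1 N0 + K3 * Dl N0 N1) ≤
        2 * v ^ 2 * (X * Real.exp (4 * K3 * l) * E3) :=
      mul_le_mul hd h1 (Real.exp_pos _).le (by positivity)
    have h4 : 2 * v ^ 2 * (X * Real.exp (4 * K3 * l) * E3) =
        2 * E3 * X * (v ^ 2 * Real.exp (4 * K3 * l)) := by ring
    have h5 : 2 * E3 * X * (v ^ 2 * Real.exp (4 * K3 * l)) ≤ 2 * E3 * X * W :=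
      mul_le_mul_of_nonneg_left hW3 (by positivity)
    have h6 : 1 ≤ X * W := one_le_mul_of_one_le_of_one_le hX1 hW1
    have h7 : ((d0 T : ℝ) + 1) * Real.exp (k ^ 2 * R1 N0 + K3 * Dl N0 N1) +
        (rr ^ d0 T)⁻¹ * Real.exp (K5 * R1 N1) ≤ X * W * (2 * E3 + 1) := by
      have : X * W * (2 * E3 + 1) = 2 * E3 * X * W + X * W := by ring
      linarith
    refine mul_le_mul hlogN1 h7 ?_ hL.le
    have := inv_nonneg.mpr (pow_nonneg rr_pos.le (d0 T))
    positivity
  -- the twisted moment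
  have hYle : ((YY T : ℕ) : ℝ) ≤ T ^ ((1:ℝ) / 20) := by
    have h1 : Real.log (YY T) ≤ L * (1 / 20) := by
      have : ε ≤ 1 / 5 := min_le_right _ _
      have := mul_le_mul_of_nonneg_right this hL.le
      linarith
    rw [Real.rpow_def_of_pos hT0, ← Real.log_le_iff_le_exp (by exact_mod_cast hYpos)]
    exact h1
  have hYy2 : YY T ≤ y2 T := by
    unfold y2
    exact Nat.le_floor hYle
  have hA : N0 ^ d0 T ≤ y2 T := by
    refine le_trans ?_ hYy2
    have : 1 ≤ N0 ^ d0 T * N1 ^ d1 T :=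
      Nat.mul_pos (pow_pos hN0 _) (pow_pos (hN0.trans h01) _)
    exact Nat.le_mul_of_pos_right _ this
  have hB : N0 ^ d0 T * N1 ^ d1 T ≤ y2 T := by
    refine le_trans ?_ hYy2
    exact Nat.le_mul_of_pos_left _ (pow_pos hN0 _)
  have hDr : ∀ s : ℂ, Dr (aI k N0 (d0 T) * muM N0 (d0 T) N1 (d1 T)) (YY T) s =
      AA k T s * MM T s := fun s =>
    Dr_mul (A := N0 ^ d0 T) (B := N0 ^ d0 T * N1 ^ d1 T) (fun n hn => aI_supp hN0 hn)
      (fun n hn => muM_supp hN0 (hN0.trans h01) hn) hA hB le_rfl s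
  have key := hT (aI k N0 (d0 T) * muM N0 (d0 T) N1 (d1 T)) N1 (YY T) (GG N0 (d0 T) N1 (d1 T))
    hP.N1_le hYle (fun n hn => prod_supp h01 hN0 hn) (fun d n h hn => GG_dvd h hn)
    (by
      intro n hn
      rw [prod_zeta]
      exact cM_good hk0 h01 hn.1 hn.2.1 hn.2.2)
    (by
      rw [prod_zeta]
      exact Sb_log hk)
  rw [prod_zeta] at key
  simp only [hDr] at key
  refine key.trans ?_
  -- assembling
  have hlast : T ^ (1 - η) *
      (∑ n ∈ Finset.Icc 1 (YY T), |(aI k N0 (d0 T) * muM N0 (d0 T) N1 (d1 T)) n|) ^ 2 ≤ T := by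
    have h1 := sum_coef_le hk (N0 := N0) (d0 := d0 T) (N1 := N1) (d1 := d1 T) hYpos
    have h2 : Real.exp (4 * Real.log (YY T)) ≤ T ^ η := by
      rw [Real.rpow_def_of_pos hT0]
      refine Real.exp_le_exp.mpr (hYlog.trans ?_)
      rw [mul_comm]
      exact mul_le_mul_of_nonneg_left (min_le_left _ _) hL.le
    calc _ ≤ T ^ (1 - η) * T ^ η :=
          mul_le_mul_of_nonneg_left (h1.trans h2) (Real.rpow_nonneg hT0.le _)
      _ = T := by rw [← Real.rpow_add hT0]; simp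
  have hSum : L * SS N1 (fun n => cM k N0 (d0 T) N1 (d1 T) n ^ 2) +
      SS N1 (fun n => ((GG N0 (d0 T) N1 (d1 T))ᶜ).indicator
        (fun n => cM k N0 (d0 T) N1 (d1 T) n ^ 2 * Real.log n) n) ≤
      L * (X * W * (E2 + 2 * E3 + 2)) := by
    have h1 := mul_le_mul_of_nonneg_left S2 hL.le
    have h2 : L * (X * W * (E2 + 2 * E3 + 2)) = L * (X * W * (E2 + 1)) +
      L * (X * W * (2 * E3 + 1)) := by ring
    rw [h2]
    exact add_le_add h1 S3
  have hfirst : C0 * T * Real.exp (-R1 N1) *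
      (L * SS N1 (fun n => cM k N0 (d0 T) N1 (d1 T) n ^ 2) +
      SS N1 (fun n => ((GG N0 (d0 T) N1 (d1 T))ᶜ).indicator
        (fun n => cM k N0 (d0 T) N1 (d1 T) n ^ 2 * Real.log n) n)) ≤
      T * X * (Real.exp (3 * l) * W) * (C0 * Real.exp c * (E2 + 2 * E3 + 2)) := by
    calc C0 * T * Real.exp (-R1 N1) *
      (L * SS N1 (fun n => cM k N0 (d0 T) N1 (d1 T) n ^ 2) +
      SS N1 (fun n => ((GG N0 (d0 T) N1 (d1 T))ᶜ).indicator
        (fun n => cM k N0 (d0 T) N1 (d1 T) n ^ 2 * Real.log n) n))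
        ≤ C0 * T * (Real.exp c * Real.exp (3 * l) / L) * (L * (X * W * (E2 + 2 * E3 + 2))) := by
          have a1 : 0 ≤ C0 * T := by positivity
          have a2 : C0 * T * Real.exp (-R1 N1) ≤ C0 * T * (Real.exp c * Real.exp (3 * l) / L) :=
            mul_le_mul_of_nonneg_left hexpR a1
          have a3 : 0 ≤ C0 * T * Real.exp (-R1 N1) := by positivity
          refine (mul_le_mul_of_nonneg_left hSum a3).trans ?_
          refine mul_le_mul_of_nonneg_right a2 ?_
          have : 0 ≤ E2 + 2 * E3 + 2 := by linarith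
          positivity
      _ = _ := by field_simp
  have hEl : Real.exp (3 * l) * W = Real.exp (EE * l) := by
    rw [hW, ← Real.exp_add]
    congr 1
    rw [hEE]
    ring
  rw [hEl] at hfirst
  have hEl1 : 1 ≤ Real.exp (EE * l) := Real.one_le_exp (by positivity)
  have hBpos : 0 < BB := by
    have : 0 ≤ E2 + 2 * E3 + 2 := by linarith
    rw [hBB]
    positivity
  have hBl : BB ≤ Real.exp l := by
    rw [← Real.log_le_iff_le_exp hBpos]
    exact hlB
  have hVp : v ^ (EE + 1) = Real.exp (EE * l) * Real.exp l := by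
    rw [Real.rpow_def_of_pos (by linarith), ← Real.exp_add]
    congr 1
    have e2 : Real.log v = l := rfl
    rw [e2]
    ring
  rw [hVp]
  have hXE : 1 ≤ X * Real.exp (EE * l) := one_le_mul_of_one_le_of_one_le hX1 hEl1
  calc _ ≤ T * X * Real.exp (EE * l) * (C0 * Real.exp c * (E2 + 2 * E3 + 2)) + T :=
        add_le_add hfirst hlast
    _ ≤ T * X * Real.exp (EE * l) * (C0 * Real.exp c * (E2 + 2 * E3 + 2)) +
        T * (X * Real.exp (EE * l)) := by
        have := mul_le_mul_of_nonneg_left hXE hT0.le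
        linarith
    _ = T * X * Real.exp (EE * l) * BB := by rw [hBB]; ring
    _ ≤ T * X * Real.exp (EE * l) * Real.exp l :=
        mul_le_mul_of_nonneg_left hBl (by positivity)
    _ = _ := by ring

end Pool.Agent.Q153.CD
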