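import Pool.Agent.Q276.CD.Stm2

set_option autoImplicit false

/-! Project CD, job M5: products of Dirichlet polynomials and the size of the parameters. -/

namespace Pool.Agent.Q153.CD

open Finset Filter
open Pool.Agent.Q276.CD

/-- product of two short Dirichlet polynomials -/
theorem Dr_mul {f g : ArithmeticFunction ℝ} {A B Y y : ℕ} (hf : ∀ n, f n ≠ 0 → n ≤ A)
    (hg : ∀ n, g n ≠ 0 → n ≤ B) (hA : A ≤ y) (hB : B ≤ y) (hY : A * B ≤ Y) (s : ℂ) :
    Dr (f * g) Y s = Dr f y s * Dr g y s := by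
  classical
  unfold Dr Dp
  rw [Finset.sum_mul_sum, ← Finset.sum_product']
  have h1 : ∀ n ∈ Finset.Icc 1 Y, (((f * g) n : ℝ) : ℂ) * (n : ℂ) ^ (-s) =
      ∑ p ∈ n.divisorsAntidiagonal, ((f p.1 : ℝ) : ℂ) * (p.1 : ℂ) ^ (-s) *
        (((g p.2 : ℝ) : ℂ) * (p.2 : ℂ) ^ (-s)) := by
    intro n _
    rw [ArithmeticFunction.mul_apply]
    push_cast
    rw [Finset.sum_mul]
    refine Finset.sum_congr rfl fun p hp => ?_
    rw [Nat.mem_divisorsAntidiagonal] at hp
    rw [← hp.1]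
    push_cast
    rw [Complex.natCast_mul_natCast_cpow]
    ring
  rw [Finset.sum_congr rfl h1, ← Finset.sum_biUnion]
  · set F : ℕ × ℕ → ℂ := fun p => ((f p.1 : ℝ) : ℂ) * (p.1 : ℂ) ^ (-s) *
        (((g p.2 : ℝ) : ℂ) * (p.2 : ℂ) ^ (-s)) with hF
    have hU1 : ∑ p ∈ (Finset.Icc 1 y ×ˢ Finset.Icc 1 y).filter (fun p => p.1 * p.2 ≤ Y), F p =
        ∑ p ∈ (Finset.Icc 1 Y).biUnion Nat.divisorsAntidiagonal, F p := by
      refine Finset.sum_subset ?_ ?_
      · intro p hp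
        rw [Finset.mem_filter, Finset.mem_product, Finset.mem_Icc, Finset.mem_Icc] at hp
        rw [Finset.mem_biUnion]
        refine ⟨p.1 * p.2, ?_, ?_⟩
        · rw [Finset.mem_Icc]
          exact ⟨Nat.mul_pos hp.1.1.1 hp.1.2.1, hp.2⟩
        · rw [Nat.mem_divisorsAntidiagonal]
          exact ⟨rfl, (Nat.mul_pos hp.1.1.1 hp.1.2.1).ne'⟩
      · intro p hp hp'
        rw [Finset.mem_biUnion] at hp
        obtain ⟨n, hn, hpn⟩ := hp
        rw [Nat.mem_divisorsAntidiagonal] at hpn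
        rw [Finset.mem_Icc] at hn
        have hp1 : p.1 ≠ 0 := left_ne_zero_of_mul (hpn.1 ▸ hpn.2)
        have hp2 : p.2 ≠ 0 := right_ne_zero_of_mul (hpn.1 ▸ hpn.2)
        by_cases h1 : f p.1 = 0
        · simp [hF, h1]
        by_cases h2 : g p.2 = 0
        · simp [hF, h2]
        exfalso
        apply hp'
        have := hf _ h1
        have := hg _ h2
        rw [Finset.mem_filter, Finset.mem_product, Finset.mem_Icc, Finset.mem_Icc]
        refine ⟨⟨⟨by omega, by omega⟩, ⟨by omega, by omega⟩⟩, by rw [hpn.1]; exact hn.2⟩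
    have hU2 : ∑ p ∈ (Finset.Icc 1 y ×ˢ Finset.Icc 1 y).filter (fun p => p.1 * p.2 ≤ Y), F p =
        ∑ p ∈ Finset.Icc 1 y ×ˢ Finset.Icc 1 y, F p := by
      refine Finset.sum_subset (Finset.filter_subset _ _) ?_
      intro p hp hp'
      by_cases h1 : f p.1 = 0
      · simp [hF, h1]
      by_cases h2 : g p.2 = 0
      · simp [hF, h2]
      exfalso
      apply hp'
      rw [Finset.mem_filter]
      exact ⟨hp, (Nat.mul_le_mul (hf _ h1) (hg _ h2)).trans hY⟩
    rw [← hU1, hU2]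
  · intro a _ b _ hab
    rw [Function.onFun, Finset.disjoint_left]
    intro p hp hq
    rw [Nat.mem_divisorsAntidiagonal] at hp hq
    exact hab (hp.1.symm.trans hq.1)

/-- the size of a smooth number in terms of the number of prime factors -/
lemma le_pow_Ob {N n : ℕ} (hn : n ∈ Nat.smoothNumbers N) : n ≤ N ^ Ob 0 N n := by
  have hn0 := (sm_iff.mp hn).1
  rw [Ob_eq_sum, ← Finset.prod_pow_eq_pow_sum]
  conv_lhs => rw [← Nat.prod_factorization_pow_eq_self hn0]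
  rw [Finsupp.prod]
  refine Finset.prod_le_prod' fun p hp => ?_
  have hp' := Nat.mem_primeFactors.mp hp
  have h2 := (sm_iff.mp hn).2 p hp'.1 hp'.2.1
  rw [if_pos ⟨Nat.zero_le _, h2⟩]
  exact Nat.pow_le_pow_left h2.le _

/-- the size of a smooth number in terms of the number of prime factors in the two blocks -/
lemma le_pow_Ob2 {N0 N1 n : ℕ} (hn : n ∈ Nat.smoothNumbers N1) :
    n ≤ N0 ^ Ob 0 N0 n * N1 ^ Ob N0 N1 n := by
  have hn0 := (sm_iff.mp hn).1
  rw [Ob_eq_sum, Ob_eq_sum, ← Finset.prod_pow_eq_pow_sum, ← Finset.prod_pow_eq_pow_sum,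
    ← Finset.prod_mul_distrib]
  conv_lhs => rw [← Nat.prod_factorization_pow_eq_self hn0]
  rw [Finsupp.prod]
  refine Finset.prod_le_prod' fun p hp => ?_
  have hp' := Nat.mem_primeFactors.mp hp
  have h2 := (sm_iff.mp hn).2 p hp'.1 hp'.2.1
  by_cases h0 : p < N0
  · rw [if_pos ⟨Nat.zero_le _, h0⟩, if_neg (by omega), pow_zero, mul_one]
    exact Nat.pow_le_pow_left h0.le _
  · rw [if_neg (by omega), if_pos ⟨by omega, h2⟩, pow_zero, one_mul]
    exact Nat.pow_le_pow_left h2.le _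

section
variable {k : ℝ} {N0 d0 N1 d1 : ℕ}

lemma aI_supp (hN0 : 1 ≤ N0) {n : ℕ} (h : aI k N0 d0 n ≠ 0) : n ≤ N0 ^ d0 := by
  classical
  rw [aI_apply] at h
  by_contra hc
  apply h
  rw [if_neg]
  rintro ⟨h1, h2⟩
  exact hc ((le_pow_Ob h1).trans (Nat.pow_le_pow_right hN0 h2))

lemma aI_smooth {n : ℕ} (h : aI k N0 d0 n ≠ 0) : n ∈ Nat.smoothNumbers N0 := by
  classical
  rw [aI_apply] at h
  by_contra hc
  exact h (if_neg fun h => hc h.1)

lemma muM_supp (hN0 : 1 ≤ N0) (hN1 : 1 ≤ N1) {n : ℕ} (h : muM N0 d0 N1 d1 n ≠ 0) :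
    n ≤ N0 ^ d0 * N1 ^ d1 := by
  classical
  rw [muM_apply] at h
  by_contra hc
  apply h
  rw [if_neg]
  rintro ⟨h1, h2, h3⟩
  exact hc ((le_pow_Ob2 h1).trans
    (Nat.mul_le_mul (Nat.pow_le_pow_right hN0 h2) (Nat.pow_le_pow_right hN1 h3)))

lemma muM_smooth {n : ℕ} (h : muM N0 d0 N1 d1 n ≠ 0) : n ∈ Nat.smoothNumbers N1 := by
  classical
  rw [muM_apply] at h
  by_contra hc
  exact h (if_neg fun h => hc h.1)

/-- the product is supported on smooth numbers of bounded size -/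
lemma prod_supp (h01 : N0 ≤ N1) (hN0 : 1 ≤ N0) {n : ℕ}
    (h : (aI k N0 d0 * muM N0 d0 N1 d1) n ≠ 0) :
    n ≤ N0 ^ d0 * (N0 ^ d0 * N1 ^ d1) ∧ n ∈ Nat.smoothNumbers N1 := by
  rw [ArithmeticFunction.mul_apply] at h
  obtain ⟨p, hp, hne⟩ := Finset.exists_ne_zero_of_sum_ne_zero h
  rw [Nat.mem_divisorsAntidiagonal] at hp
  have ha := left_ne_zero_of_mul hne
  have hm := right_ne_zero_of_mul hne
  rw [← hp.1]
  exact ⟨Nat.mul_le_mul (aI_supp hN0 ha) (muM_supp hN0 (hN0.trans h01) hm),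
    sm_mul.mpr ⟨sm_mono h01 (aI_smooth ha), muM_smooth hm⟩⟩

/-- the trivial bound of the coefficients of the product -/
lemma prod_abs_le (hk : |k| ≤ 1) (n : ℕ) : |(aI k N0 d0 * muM N0 d0 N1 d1) n| ≤ n := by
  rw [ArithmeticFunction.mul_apply]
  refine (Finset.abs_sum_le_sum_abs _ _).trans ?_
  have h1 : ∀ p ∈ n.divisorsAntidiagonal, |aI k N0 d0 p.1 * muM N0 d0 N1 d1 p.2| ≤ 1 := by
    intro p _
    rw [abs_mul]
    exact mul_le_one₀ (aI_abs hk _) (abs_nonneg _) (muM_abs _)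
  refine (Finset.sum_le_sum h1).trans ?_
  rw [Finset.sum_const, nsmul_eq_mul, mul_one, ← Nat.map_div_right_divisors, Finset.card_map]
  exact_mod_cast Nat.card_divisors_le_self n

/-- the convolution with one -/
lemma prod_zeta : (aI k N0 d0 * muM N0 d0 N1 d1) *
    ((ArithmeticFunction.zeta : ArithmeticFunction ℕ) : ArithmeticFunction ℝ) =
    cM k N0 d0 N1 d1 := by
  rw [mul_assoc]
  rfl

end

end Pool.Agent.Q153.CD
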