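import Pool.Agent.Q153.CD.M5a

set_option autoImplicit false

/-! Project CD, job M5: the sums over the smooth numbers. -/

namespace Pool.Agent.Q153.CD

open Finset Filter
open Pool.Agent.Q276.CD

section
variable {k : ℝ} {N0 d0 N1 d1 : ℕ}

lemma rr_pow_ge {a b : ℕ} (h : a ≤ b) : 1 ≤ (rr ^ a)⁻¹ * rr ^ b := by
  have h0 : 0 < rr ^ a := pow_pos rr_pos a
  rw [inv_mul_eq_div, one_le_div h0]
  exact pow_le_pow_right₀ one_le_rr h

/-- pointwise bound of the squares -/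
lemma cM_sq_le (hk0 : 0 ≤ k) (hk1 : k ≤ 1) (h01 : N0 ≤ N1) {n : ℕ} (hn : n ≠ 0) :
    cM k N0 d0 N1 d1 n ^ 2 ≤ mf (wm k 2 N0) n + (rr ^ d0)⁻¹ * mf (tm 4) n := by
  have hk : |k| ≤ 1 := by rw [abs_of_nonneg hk0]; exact hk1
  have hA : 0 ≤ mf (wm k 2 N0) n := mf_nonneg wm_nonneg n
  have hB : 0 ≤ (rr ^ d0)⁻¹ * mf (tm 4) n :=
    mul_nonneg (inv_nonneg.mpr (pow_nonneg rr_pos.le _)) (mf_nonneg (tm_nonneg 4) n)
  by_cases ho : Ob 0 N0 n ≤ d0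
  · have h1 := cM_le (k := k) (d1 := d1) hk0 h01 hn ho
    have h2 : cM k N0 d0 N1 d1 n ^ 2 ≤ mf (wl k N0) n ^ 2 := by
      rw [← sq_abs]
      exact pow_le_pow_left₀ (abs_nonneg _) h1 2
    have h3 := wl_sq_le (k := k) (N0 := N0) n
    linarith
  · have h1 := cM_abs (k := k) (N0 := N0) (d0 := d0) (N1 := N1) (d1 := d1) hk hn
    have h2 : cM k N0 d0 N1 d1 n ^ 2 ≤ tau n ^ 4 := by
      rw [← sq_abs]
      calc |cM k N0 d0 N1 d1 n| ^ 2 ≤ (tau n ^ 2) ^ 2 := pow_le_pow_left₀ (abs_nonneg _) h1 2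
        _ = tau n ^ 4 := by ring
    have h3 := tau_pow_Ob 4 0 N0 n
    have h4 := rr_pow_ge (a := d0) (b := Ob 0 N0 n) (by omega)
    have h5 : 0 ≤ tau n ^ 4 := pow_nonneg (tau_nonneg n) 4
    have h6 : tau n ^ 4 ≤ (rr ^ d0)⁻¹ * mf (tm 4) n := by
      calc tau n ^ 4 ≤ tau n ^ 4 * ((rr ^ d0)⁻¹ * rr ^ Ob 0 N0 n) := le_mul_of_one_le_right h5 h4
        _ = (rr ^ d0)⁻¹ * (tau n ^ 4 * rr ^ Ob 0 N0 n) := by ring
        _ ≤ _ := mul_le_mul_of_nonneg_left h3 (inv_nonneg.mpr (pow_nonneg rr_pos.le _))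
    linarith

theorem SS_sq (hk0 : 0 ≤ k) (hk1 : k ≤ 1) (h01 : N0 ≤ N1) :
    SS N1 (fun n => cM k N0 d0 N1 d1 n ^ 2) ≤
      Real.exp (k ^ 2 * R1 N0 + Km 2 * Dl N0 N1) + (rr ^ d0)⁻¹ * Real.exp (Km 4 * R1 N1) := by
  obtain ⟨w1, w2⟩ := wm_bound (k := k) (m := 2) h01
  obtain ⟨t1, t2⟩ := tm_bound 4 N1
  have hr : 0 ≤ (rr ^ d0)⁻¹ := inv_nonneg.mpr (pow_nonneg rr_pos.le _)
  have hg : Sb N1 (fun n => mf (wm k 2 N0) n + (rr ^ d0)⁻¹ * mf (tm 4) n) :=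
    w1.add (t1.const_mul _)
  have hpt : ∀ n ∈ Nat.smoothNumbers N1, cM k N0 d0 N1 d1 n ^ 2 ≤
      mf (wm k 2 N0) n + (rr ^ d0)⁻¹ * mf (tm 4) n :=
    fun n hn => cM_sq_le hk0 hk1 h01 (sm_iff.mp hn).1
  have hf : Sb N1 (fun n => cM k N0 d0 N1 d1 n ^ 2) :=
    Sb_of_le hg fun n hn => by rw [abs_of_nonneg (sq_nonneg _)]; exact hpt n hn
  refine (SS_le hf hg hpt).trans ?_
  rw [SS_add w1 (t1.const_mul _), SS_const_mul]
  exact add_le_add w2 (mul_le_mul_of_nonneg_left t2 hr)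

/-- the good set -/
def GG (N0 d0 N1 d1 : ℕ) : Set ℕ := {n | n ≠ 0 ∧ Ob 0 N0 n ≤ d0 ∧ Ob N0 N1 n ≤ d1}

lemma GG_dvd {d n : ℕ} (h : d ∣ n) (hn : n ∈ GG N0 d0 N1 d1) : d ∈ GG N0 d0 N1 d1 :=
  ⟨fun h0 => hn.1 (by subst h0; exact Nat.eq_zero_of_zero_dvd h),
    (Ob_le_of_dvd 0 N0 h hn.1).trans hn.2.1, (Ob_le_of_dvd N0 N1 h hn.1).trans hn.2.2⟩

lemma log_smooth_nonneg (n : ℕ) : 0 ≤ Real.log (n : ℝ) := Real.log_natCast_nonneg n

/-- pointwise bound outside the good set -/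
lemma bad_le (hk0 : 0 ≤ k) (hk1 : k ≤ 1) (h01 : N0 ≤ N1) {n : ℕ}
    (hn : n ∈ Nat.smoothNumbers N1) :
    ((GG N0 d0 N1 d1)ᶜ).indicator (fun n => cM k N0 d0 N1 d1 n ^ 2 * Real.log n) n ≤
      Real.log N1 * (((d0 : ℝ) + 1) * mf (wm k 3 N0) n + (rr ^ d0)⁻¹ * mf (tm 5) n) := by
  have hk : |k| ≤ 1 := by rw [abs_of_nonneg hk0]; exact hk1
  have hn0 := (sm_iff.mp hn).1
  have hL : 0 ≤ Real.log (N1 : ℝ) := Real.log_natCast_nonneg N1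
  have hA : 0 ≤ ((d0 : ℝ) + 1) * mf (wm k 3 N0) n :=
    mul_nonneg (by positivity) (mf_nonneg wm_nonneg n)
  have hB : 0 ≤ (rr ^ d0)⁻¹ * mf (tm 5) n :=
    mul_nonneg (inv_nonneg.mpr (pow_nonneg rr_pos.le _)) (mf_nonneg (tm_nonneg 5) n)
  by_cases hG : n ∈ GG N0 d0 N1 d1
  · rw [Set.indicator_of_notMem (Set.notMem_compl_iff.mpr hG)]
    exact mul_nonneg hL (add_nonneg hA hB)
  rw [Set.indicator_of_mem (Set.mem_compl hG)]
  have hlog := log_le_Ob hn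
  by_cases ho : Ob 0 N0 n ≤ d0
  · have h1 := cM_le (k := k) (d1 := d1) hk0 h01 hn0 ho
    have h2 : cM k N0 d0 N1 d1 n ^ 2 ≤ mf (wl k N0) n ^ 2 := by
      rw [← sq_abs]
      exact pow_le_pow_left₀ (abs_nonneg _) h1 2
    have h3 := wl_sq_Ob1 (k := k) (N0 := N0) N1 n
    have h4 : (Ob 0 N1 n : ℝ) ≤ ((d0 : ℝ) + 1) * (1 + Ob N0 N1 n) := by
      rw [Ob_split h01]
      push_cast
      have e1 : (Ob 0 N0 n : ℝ) ≤ d0 := by exact_mod_cast ho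
      have e2 : (0 : ℝ) ≤ Ob N0 N1 n := Nat.cast_nonneg _
      have e3 : (0 : ℝ) ≤ d0 := Nat.cast_nonneg _
      nlinarith [mul_nonneg e3 e2]
    have h5 : (1 : ℝ) ≤ rr ^ Ob N0 N1 n := one_le_pow₀ one_le_rr
    have h6 : (0 : ℝ) ≤ 1 + Ob N0 N1 n := by positivity
    have h7 : 0 ≤ mf (wl k N0) n ^ 2 := sq_nonneg _
    calc cM k N0 d0 N1 d1 n ^ 2 * Real.log n
        ≤ mf (wl k N0) n ^ 2 * (Ob 0 N1 n * Real.log N1) :=
          mul_le_mul h2 hlog (log_smooth_nonneg n) h7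
      _ ≤ mf (wl k N0) n ^ 2 * ((((d0 : ℝ) + 1) * (1 + Ob N0 N1 n)) * Real.log N1) := by
          refine mul_le_mul_of_nonneg_left ?_ h7
          exact mul_le_mul_of_nonneg_right h4 hL
      _ = Real.log N1 * (((d0 : ℝ) + 1) * (mf (wl k N0) n ^ 2 * ((1 + Ob N0 N1 n) * 1))) := by ring
      _ ≤ Real.log N1 * (((d0 : ℝ) + 1) *
            (mf (wl k N0) n ^ 2 * ((1 + Ob N0 N1 n) * rr ^ Ob N0 N1 n))) := by
          refine mul_le_mul_of_nonneg_left ?_ hL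
          refine mul_le_mul_of_nonneg_left ?_ (by positivity)
          refine mul_le_mul_of_nonneg_left ?_ h7
          exact mul_le_mul_of_nonneg_left h5 h6
      _ ≤ Real.log N1 * (((d0 : ℝ) + 1) * mf (wm k 3 N0) n) := by
          refine mul_le_mul_of_nonneg_left ?_ hL
          exact mul_le_mul_of_nonneg_left h3 (by positivity)
      _ ≤ _ := mul_le_mul_of_nonneg_left (by linarith) hL
  · have h1 := cM_abs (k := k) (N0 := N0) (d0 := d0) (N1 := N1) (d1 := d1) hk hn0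
    have h2 : cM k N0 d0 N1 d1 n ^ 2 ≤ tau n ^ 4 := by
      rw [← sq_abs]
      calc |cM k N0 d0 N1 d1 n| ^ 2 ≤ (tau n ^ 2) ^ 2 := pow_le_pow_left₀ (abs_nonneg _) h1 2
        _ = tau n ^ 4 := by ring
    have h3 := tau_pow_Ob 5 0 N0 n
    have h4 := rr_pow_ge (a := d0) (b := Ob 0 N0 n) (by omega)
    have h5 : 0 ≤ tau n ^ 5 := pow_nonneg (tau_nonneg n) 5
    have h5' : 0 ≤ tau n ^ 4 := pow_nonneg (tau_nonneg n) 4
    have h8 : (Ob 0 N1 n : ℝ) ≤ tau n := by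
      have := Ob_le_tau (a := 0) (b := N1) (n := n)
      linarith
    have h6 : tau n ^ 5 ≤ (rr ^ d0)⁻¹ * mf (tm 5) n := by
      calc tau n ^ 5 ≤ tau n ^ 5 * ((rr ^ d0)⁻¹ * rr ^ Ob 0 N0 n) := le_mul_of_one_le_right h5 h4
        _ = (rr ^ d0)⁻¹ * (tau n ^ 5 * rr ^ Ob 0 N0 n) := by ring
        _ ≤ _ := mul_le_mul_of_nonneg_left h3 (inv_nonneg.mpr (pow_nonneg rr_pos.le _))
    calc cM k N0 d0 N1 d1 n ^ 2 * Real.log n
        ≤ tau n ^ 4 * (Ob 0 N1 n * Real.log N1) :=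
          mul_le_mul h2 hlog (log_smooth_nonneg n) h5'
      _ ≤ tau n ^ 4 * (tau n * Real.log N1) := by
          refine mul_le_mul_of_nonneg_left ?_ h5'
          exact mul_le_mul_of_nonneg_right h8 hL
      _ = Real.log N1 * tau n ^ 5 := by ring
      _ ≤ Real.log N1 * ((rr ^ d0)⁻¹ * mf (tm 5) n) := mul_le_mul_of_nonneg_left h6 hL
      _ ≤ _ := mul_le_mul_of_nonneg_left (by linarith) hL

theorem SS_bad (hk0 : 0 ≤ k) (hk1 : k ≤ 1) (h01 : N0 ≤ N1) :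
    SS N1 (fun n => ((GG N0 d0 N1 d1)ᶜ).indicator
      (fun n => cM k N0 d0 N1 d1 n ^ 2 * Real.log n) n) ≤
      Real.log N1 * (((d0 : ℝ) + 1) * Real.exp (k ^ 2 * R1 N0 + Km 3 * Dl N0 N1) +
        (rr ^ d0)⁻¹ * Real.exp (Km 5 * R1 N1)) := by
  obtain ⟨w1, w2⟩ := wm_bound (k := k) (m := 3) h01
  obtain ⟨t1, t2⟩ := tm_bound 5 N1
  have hr : 0 ≤ (rr ^ d0)⁻¹ := inv_nonneg.mpr (pow_nonneg rr_pos.le _)
  have hL : 0 ≤ Real.log (N1 : ℝ) := Real.log_natCast_nonneg N1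
  have hg0 : Sb N1 (fun n => ((d0 : ℝ) + 1) * mf (wm k 3 N0) n + (rr ^ d0)⁻¹ * mf (tm 5) n) :=
    (w1.const_mul _).add (t1.const_mul _)
  have hg : Sb N1 (fun n => Real.log N1 *
      (((d0 : ℝ) + 1) * mf (wm k 3 N0) n + (rr ^ d0)⁻¹ * mf (tm 5) n)) := hg0.const_mul _
  have hpt : ∀ n ∈ Nat.smoothNumbers N1, ((GG N0 d0 N1 d1)ᶜ).indicator
      (fun n => cM k N0 d0 N1 d1 n ^ 2 * Real.log n) n ≤
      Real.log N1 * (((d0 : ℝ) + 1) * mf (wm k 3 N0) n + (rr ^ d0)⁻¹ * mf (tm 5) n) :=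
    fun n hn => bad_le hk0 hk1 h01 hn
  have hf : Sb N1 (fun n => ((GG N0 d0 N1 d1)ᶜ).indicator
      (fun n => cM k N0 d0 N1 d1 n ^ 2 * Real.log n) n) :=
    Sb_of_le hg fun n hn => by
      rw [abs_of_nonneg]
      · exact hpt n hn
      · refine Set.indicator_nonneg (fun m _ => ?_) n
        exact mul_nonneg (sq_nonneg _) (log_smooth_nonneg m)
  refine (SS_le hf hg hpt).trans ?_
  rw [SS_const_mul, SS_add (w1.const_mul _) (t1.const_mul _), SS_const_mul, SS_const_mul]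
  refine mul_le_mul_of_nonneg_left ?_ hL
  exact add_le_add (mul_le_mul_of_nonneg_left w2 (by positivity))
    (mul_le_mul_of_nonneg_left t2 hr)

theorem Sb_log (hk : |k| ≤ 1) :
    Sb N1 (fun n => cM k N0 d0 N1 d1 n ^ 2 * (1 + Real.log n)) := by
  obtain ⟨t1, -⟩ := tm_bound 5 N1
  refine Sb_of_le (t1.const_mul (1 + Real.log N1)) fun n hn => ?_
  have hn0 := (sm_iff.mp hn).1
  have hL : 0 ≤ Real.log (N1 : ℝ) := Real.log_natCast_nonneg N1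
  have hlog := log_le_Ob hn
  have hln := log_smooth_nonneg n
  have h1 := cM_abs (k := k) (N0 := N0) (d0 := d0) (N1 := N1) (d1 := d1) hk hn0
  have h2 : cM k N0 d0 N1 d1 n ^ 2 ≤ tau n ^ 4 := by
    rw [← sq_abs]
    calc |cM k N0 d0 N1 d1 n| ^ 2 ≤ (tau n ^ 2) ^ 2 := pow_le_pow_left₀ (abs_nonneg _) h1 2
      _ = tau n ^ 4 := by ring
  have h3 := tau_pow_Ob 5 0 0 n
  have h5 : 0 ≤ tau n ^ 5 := pow_nonneg (tau_nonneg n) 5
  have h5' : 0 ≤ tau n ^ 4 := pow_nonneg (tau_nonneg n) 4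
  have ht : 1 ≤ tau n := one_le_tau hn0
  have h8 : (Ob 0 N1 n : ℝ) ≤ tau n := by
    have := Ob_le_tau (a := 0) (b := N1) (n := n)
    linarith
  have h9 : (1 : ℝ) ≤ rr ^ Ob 0 0 n := one_le_pow₀ one_le_rr
  rw [abs_of_nonneg (mul_nonneg (sq_nonneg _) (by linarith))]
  calc cM k N0 d0 N1 d1 n ^ 2 * (1 + Real.log n)
      ≤ tau n ^ 4 * (tau n + tau n * Real.log N1) := by
        refine mul_le_mul h2 ?_ (by linarith) h5'
        exact add_le_add ht (hlog.trans (mul_le_mul_of_nonneg_right h8 hL))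
    _ = (1 + Real.log N1) * (tau n ^ 5 * 1) := by ring
    _ ≤ (1 + Real.log N1) * (tau n ^ 5 * rr ^ Ob 0 0 n) := by
        refine mul_le_mul_of_nonneg_left ?_ (by linarith)
        exact mul_le_mul_of_nonneg_left h9 h5
    _ ≤ (1 + Real.log N1) * mf (tm 5) n := mul_le_mul_of_nonneg_left h3 (by linarith)

end

end Pool.Agent.Q153.CD
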