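import Pool.Agent.Q153.CD.M5b

set_option autoImplicit false

/-! Project CD, job M5: the parameters, and the proof. -/

namespace Pool.Agent.Q153.CD

open Finset Filter
open Pool.Agent.Q276.CD

/-- Mertens at the end of a block -/
lemma R1_floor : ∃ c : ℝ, 0 ≤ c ∧ ∀ x : ℝ, 2 ≤ x → |R1 (⌊Real.exp x⌋₊ + 1) - Real.log x| ≤ c := by
  obtain ⟨C, hC0, hC⟩ := R1_bd
  refine ⟨C + 1, by linarith, fun x hx => ?_⟩
  have hx0 : 0 < x := by linarith
  have he : (4 : ℝ) ≤ Real.exp x := by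
    have h1 : Real.exp 2 ≤ Real.exp x := Real.exp_le_exp.mpr hx
    have h2 : Real.exp 2 = Real.exp 1 * Real.exp 1 := by rw [← Real.exp_add]; norm_num
    have h3 := Real.exp_one_gt_d9
    nlinarith
  set m := ⌊Real.exp x⌋₊ with hm
  have hm1 : (m : ℝ) ≤ Real.exp x := Nat.floor_le (Real.exp_pos x).le
  have hm2 : Real.exp x < m + 1 := Nat.lt_floor_add_one _
  have hm3 : 3 ≤ m := by
    have : (4 : ℕ) ≤ m := Nat.le_floor (by exact_mod_cast he)
    omega
  have hmpos : (0 : ℝ) < m := by exact_mod_cast (by omega : 0 < m)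
  have hlog1 : Real.log m ≤ x := (Real.log_le_log hmpos hm1).trans (le_of_eq (Real.log_exp x))
  have hlog2 : x / 2 ≤ Real.log m := by
    have h1 : Real.exp x / 2 ≤ m := by linarith
    have h2 : Real.log (Real.exp x / 2) ≤ Real.log m :=
      Real.log_le_log (by positivity) h1
    rw [Real.log_div (Real.exp_pos x).ne' (by norm_num), Real.log_exp] at h2
    have := Real.log_two_lt_d9
    linarith
  have hll1 : Real.log (Real.log m) ≤ Real.log x := Real.log_le_log (by linarith) hlog1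
  have hll2 : Real.log x - 1 ≤ Real.log (Real.log m) := by
    have h2 : Real.log (x / 2) ≤ Real.log (Real.log m) := Real.log_le_log (by linarith) hlog2
    rw [Real.log_div hx0.ne' (by norm_num)] at h2
    have := Real.log_two_lt_d9
    linarith
  have := abs_le.mp (hC m hm3)
  rw [abs_le]
  constructor <;> linarith [this.1, this.2]

lemma log_floor {x : ℝ} (hx : 0 ≤ x) : Real.log ((⌊Real.exp x⌋₊ + 1 : ℕ) : ℝ) ≤ x + 1 := by
  have h1 : (1 : ℝ) ≤ Real.exp x := Real.one_le_exp hx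
  have h2 : ((⌊Real.exp x⌋₊ + 1 : ℕ) : ℝ) ≤ 2 * Real.exp x := by
    push_cast
    have := Nat.floor_le (Real.exp_pos x).le
    linarith
  have h3 : Real.log ((⌊Real.exp x⌋₊ + 1 : ℕ) : ℝ) ≤ Real.log (2 * Real.exp x) :=
    Real.log_le_log (by positivity) h2
  rw [Real.log_mul (by norm_num) (Real.exp_pos x).ne', Real.log_exp] at h3
  have := Real.log_two_lt_d9
  linarith

lemma tendsto_V : Tendsto V atTop atTop := Real.tendsto_log_atTop.comp Real.tendsto_log_atTop

lemma tendsto_l3 : Tendsto l3 atTop atTop := Real.tendsto_log_atTop.comp tendsto_V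

/-- the relations of the parameters -/
structure Par (c ε T : ℝ) : Prop where
  hT : 4 ≤ T
  hL : Real.log T = Real.exp (V T)
  hV : V T = Real.exp (l3 T)
  hl : 4 ≤ l3 T
  hx0 : 2 ≤ Real.log T / V T ^ 4
  hε : 24 * Real.log T / l3 T + 24 * V T ^ 2 ≤ ε * Real.log T
  hc : c * V T + c ≤ V T ^ 2 * Real.log rr

lemma par_eventually (c ε : ℝ) (hε : 0 < ε) : ∀ᶠ T : ℝ in atTop, Par c ε T := by
  have e0 : ∀ᶠ T : ℝ in atTop, 4 ≤ T := eventually_ge_atTop 4
  have e1 : ∀ᶠ T : ℝ in atTop, 4 ≤ l3 T := tendsto_l3.eventually_ge_atTop 4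
  have e2 : ∀ᶠ T : ℝ in atTop, 48 / ε ≤ l3 T := tendsto_l3.eventually_ge_atTop _
  have e3 : ∀ᶠ T : ℝ in atTop, 2 ≤ Real.exp (V T) / V T ^ 4 :=
    ((Real.tendsto_exp_div_pow_atTop 4).comp tendsto_V).eventually_ge_atTop 2
  have e4 : ∀ᶠ T : ℝ in atTop, 48 / ε ≤ Real.exp (V T) / V T ^ 2 :=
    ((Real.tendsto_exp_div_pow_atTop 2).comp tendsto_V).eventually_ge_atTop _
  have hlr : 0 < Real.log rr := Real.log_pos (by unfold rr; norm_num)
  have e5 : ∀ᶠ T : ℝ in atTop, (|c| + |c|) / Real.log rr ≤ V T := tendsto_V.eventually_ge_atTop _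
  have e6 : ∀ᶠ T : ℝ in atTop, 1 ≤ V T := tendsto_V.eventually_ge_atTop 1
  have e7 : ∀ᶠ T : ℝ in atTop, 1 ≤ Real.log T := Real.tendsto_log_atTop.eventually_ge_atTop 1
  filter_upwards [e0, e1, e2, e3, e4, e5, e6, e7] with T h0 h1 h2 h3 h4 h5 h6 h7
  have hL : Real.log T = Real.exp (V T) := by
    unfold V
    rw [Real.exp_log (by linarith)]
  have hV : V T = Real.exp (l3 T) := by
    unfold l3
    rw [Real.exp_log (by linarith)]
  refine ⟨h0, hL, hV, h1, by rw [hL]; exact h3, ?_, ?_⟩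
  · have hLpos : 0 < Real.log T := by linarith
    have a1 : 24 * Real.log T / l3 T ≤ ε / 2 * Real.log T := by
      rw [div_le_iff₀ (by linarith)]
      have : 48 ≤ l3 T * ε := by rwa [div_le_iff₀ hε] at h2
      nlinarith
    have a2 : 24 * V T ^ 2 ≤ ε / 2 * Real.log T := by
      rw [hL]
      rw [le_div_iff₀ (by positivity)] at h4
      have h4' : 48 * V T ^ 2 ≤ Real.exp (V T) * ε := by
        have := mul_le_mul_of_nonneg_right h4 hε.le
        have e : 48 / ε * V T ^ 2 * ε = 48 * V T ^ 2 := by field_simp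
        linarith
      linarith
    linarith
  · have a1 : |c| + |c| ≤ V T * Real.log rr := by rwa [div_le_iff₀ hlr] at h5
    have a2 : c ≤ |c| := le_abs_self c
    have a3 : 0 ≤ |c| := abs_nonneg c
    have a4 : c * V T + c ≤ (|c| + |c|) * V T := by nlinarith
    calc c * V T + c ≤ (|c| + |c|) * V T := a4
      _ ≤ (V T * Real.log rr) * V T := mul_le_mul_of_nonneg_right a1 (by linarith)
      _ = _ := by ring

section
variable {c ε T : ℝ}

lemma Par.V_ge (h : Par c ε T) : 4 ≤ V T := by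
  rw [h.hV]
  have := Real.add_one_le_exp (l3 T)
  linarith [h.hl]

lemma Par.l_le (h : Par c ε T) : l3 T + 1 ≤ V T := by
  rw [h.hV]
  exact Real.add_one_le_exp (l3 T)

lemma Par.L_pos (h : Par c ε T) : 0 < Real.log T := by rw [h.hL]; exact Real.exp_pos _

/-- the exponent of the second block -/
lemma Par.x1_ge (h : Par c ε T) : Real.log T / V T ^ 4 ≤ Real.log T / l3 T ^ 3 := by
  have h1 := h.hl
  have h2 := h.l_le
  have h3 := h.V_ge
  refine div_le_div_of_nonneg_left h.L_pos.le (by positivity) ?_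
  calc l3 T ^ 3 ≤ V T ^ 3 := pow_le_pow_left₀ (by linarith) (by linarith) 3
    _ = V T ^ 3 * 1 := by ring
    _ ≤ V T ^ 3 * V T := mul_le_mul_of_nonneg_left (by linarith) (by positivity)
    _ = _ := by ring

lemma Par.N01 (h : Par c ε T) : y0 T ≤ y1 T := by
  unfold y0 y1
  have := h.x1_ge
  exact Nat.succ_le_succ (Nat.floor_le_floor (Real.exp_le_exp.mpr this))

lemma Par.N0_pos (T : ℝ) : 1 ≤ y0 T := by unfold y0; omega

lemma Par.N1_le (h : Par c ε T) : (y1 T : ℝ) ≤ T := by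
  unfold y1
  push_cast
  have h1 := h.hl
  have hL := h.L_pos
  have hT0 : 0 < T := by linarith [h.hT]
  have h2 : Real.log T / l3 T ^ 3 ≤ Real.log T / 2 := by
    refine div_le_div_of_nonneg_left hL.le (by norm_num) ?_
    calc (2 : ℝ) ≤ 4 ^ 3 := by norm_num
      _ ≤ l3 T ^ 3 := pow_le_pow_left₀ (by norm_num) h1 3
  have h3 : Real.exp (Real.log T / l3 T ^ 3) ≤ √T := by
    refine (Real.exp_le_exp.mpr h2).trans (le_of_eq ?_)
    rw [Real.exp_half, Real.exp_log hT0]
  have h4 := Nat.floor_le (Real.exp_pos (Real.log T / l3 T ^ 3)).le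
  have h5 : 2 ≤ √T := by
    rw [show (2 : ℝ) = √4 by rw [show (4 : ℝ) = 2 ^ 2 by norm_num, Real.sqrt_sq (by norm_num)]]
    exact Real.sqrt_le_sqrt h.hT
  have h6 : √T * √T = T := Real.mul_self_sqrt hT0.le
  nlinarith

lemma Par.log_N0 (h : Par c ε T) : Real.log (y0 T) ≤ Real.log T / V T ^ 4 + 1 := by
  unfold y0
  exact log_floor (by linarith [h.hx0])

lemma Par.log_N1 (h : Par c ε T) : Real.log (y1 T) ≤ Real.log T / l3 T ^ 3 + 1 := by
  unfold y1
  exact log_floor (by linarith [h.hx0, h.x1_ge])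

lemma Par.d0_le (T : ℝ) : (d0 T : ℝ) ≤ V T ^ 2 + 1 := by
  unfold d0
  exact (Nat.ceil_lt_add_one (sq_nonneg _)).le

lemma Par.d0_ge (T : ℝ) : V T ^ 2 ≤ d0 T := by
  unfold d0
  exact Nat.le_ceil _

lemma Par.d1_le (T : ℝ) : (d1 T : ℝ) ≤ l3 T ^ 2 + 1 := by
  unfold d1
  exact (Nat.ceil_lt_add_one (sq_nonneg _)).le

/-- the length of the product -/
noncomputable def YY (T : ℝ) : ℕ := y0 T ^ d0 T * (y0 T ^ d0 T * y1 T ^ d1 T)

lemma YY_pos (T : ℝ) : 0 < YY T := by
  unfold YY y0 y1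
  positivity

lemma Par.log_YY (h : Par c ε T) : 4 * Real.log (YY T) ≤ ε * Real.log T := by
  have hV := h.V_ge
  have hl := h.hl
  have hlV := h.l_le
  have hL := h.L_pos
  have hN0 : (0 : ℝ) < y0 T := by unfold y0; positivity
  have hN1 : (0 : ℝ) < y1 T := by unfold y1; positivity
  have e : Real.log (YY T) = 2 * (d0 T * Real.log (y0 T)) + d1 T * Real.log (y1 T) := by
    unfold YY
    push_cast
    rw [Real.log_mul (by positivity) (by positivity), Real.log_mul (by positivity) (by positivity),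
      Real.log_pow, Real.log_pow]
    ring
  rw [e]
  have a0 : (0 : ℝ) ≤ Real.log T / V T ^ 4 + 1 := by linarith [h.hx0]
  have a1 : (0 : ℝ) ≤ Real.log T / l3 T ^ 3 + 1 := by linarith [h.hx0, h.x1_ge]
  have b0 : d0 T * Real.log (y0 T) ≤ (2 * V T ^ 2) * (Real.log T / V T ^ 4 + 1) := by
    refine mul_le_mul ?_ h.log_N0 (Real.log_natCast_nonneg _) (by positivity)
    have := Par.d0_le T
    nlinarith
  have b1 : d1 T * Real.log (y1 T) ≤ (2 * l3 T ^ 2) * (Real.log T / l3 T ^ 3 + 1) := by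
    refine mul_le_mul ?_ h.log_N1 (Real.log_natCast_nonneg _) (by positivity)
    have := Par.d1_le T
    nlinarith
  have c0 : (2 * V T ^ 2) * (Real.log T / V T ^ 4 + 1) = 2 * (Real.log T / V T ^ 2) + 2 * V T ^ 2 := by
    field_simp
  have c1 : (2 * l3 T ^ 2) * (Real.log T / l3 T ^ 3 + 1) = 2 * (Real.log T / l3 T) + 2 * l3 T ^ 2 := by
    field_simp
  have f0 : Real.log T / V T ^ 2 ≤ Real.log T / l3 T := by
    refine div_le_div_of_nonneg_left hL.le (by linarith) ?_
    nlinarith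
  have f1 : l3 T ^ 2 ≤ V T ^ 2 := pow_le_pow_left₀ (by linarith) (by linarith) 2
  have := h.hε
  have e2 : 24 * Real.log T / l3 T = 24 * (Real.log T / l3 T) := by ring
  rw [e2] at this
  linarith

end

end Pool.Agent.Q153.CD
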